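import Pool.Agent.Y121.NK.Sign

/-!
# The sign conjecture for noncommutative motives of geometric origin

`𝒱` is a class of smooth projective geometrically irreducible varieties over the field `k` closed
under products, `C` the Chow groups with rational coefficients (in the form of their formal
properties, `IsChowProj`), `H` a Weil cohomology theory (`IsWeilProj`, `GradedComm`: in
characteristic `0` de Rham cohomology, in characteristic `p` crystalline cohomology), finite-
dimensional on `X` and `X × X`.

Dictionary. The map `α ↦ ch(α) √td(X × Y)` is an isomorphism of `K_0(X × Y)_ℚ` with the group
`CH^*(X × Y)_ℚ` of classes of all degrees, compatible with compositions. So the endomorphism ring of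
the noncommutative Chow motive `U(perf_dg X)_ℚ` is the ring `C.A (X × X)` with the composition
`C.comp`, and a direct summand of `U(perf_dg X)_ℚ` (for example `U(𝒜)_ℚ` for an admissible
subcategory `𝒜` of `perf_dg X`) is a pair `(X, e)` with an idempotent `e`, not necessarily
homogeneous; `HP_±`, resp. `TP_±(-)_{1/p}`, of it is the direct summand `e H(X)` of the cohomology of
`X` with its parity grading. The Chow motives are the pairs `(X, p)` with `p` of codimension
`dim X`.

`SignNC H e` is the conjecture `C^+_nc` of the problem for `(X, e)`, and `SignChow H p` is
Grothendieck's sign conjecture `C^+` for the Chow motive `(X, p)`.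

Theorem. Let `e` be idempotent modulo homological equivalence. `C^+_nc` holds for `(X, e)` if and
only if `(X, e)` is isomorphic, modulo homological equivalence, to the image of a Chow motive
`(X, p)` for which `C^+` holds; here one can take `p = e` if `e` is homogeneous.

Steps of the proof: (1) trace formula: the degree of the restriction to the diagonal of a
correspondence of any degrees is the supertrace of its action on `H(X)`. (2) Modulo homological
equivalence let `J` be the radical of the form `tr(x y)`, and `e = e_+ + e_-` the decomposition given
by an algebraic lift of the even projector. An element of `J` in the corner of `e_+` or `e_-` has all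
traces zero on a purely even or purely odd space, so it is nilpotent of bounded order, and `J e R` is
a nil ideal by the theorem of Nagata and Higman. (3) `J` and this property of `e` are stable under
the automorphism `2^(deg)`, so they pass to the homogeneous components of `e`. (4) In the
semisimple quotient of `C.A (X × X)` the left ideal of `e` degenerates to the homogeneous ideal of its
initial forms, which is generated by a homogeneous idempotent and isomorphic to it; this idempotent
and the isomorphism can be lifted by (2) and (3).
-/

open CategoryTheory AlgebraicGeometry

set_option autoImplicit false

universe u v w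

namespace Pool.Agent.Results.MP_8f22fa_ag.GeometricSign

open Pool.Agent.H914 Pool.Agent.H914.VarClass Pool.Agent.H914.VarClass.Obj Pool.Agent.W492.BB
  Pool.Agent.W550.Corr Pool.Agent.TH133 Pool.Agent.Y121.NK

/-- The noncommutative motive `(X, e)` satisfies the noncommutative sign conjecture if and only if
it is isomorphic, modulo homological equivalence, to a Chow motive `(X, p)` which satisfies
Grothendieck's sign conjecture, with `p = e` if `e` is homogeneous. -/
theorem result {k : Type u} [Field k] {𝒱 : VarClass k} {C : TheoryData.{u, v, 0} 𝒱 ℚ}
    [IsChowProj C] {K : Type w} [Field K] (H : WeilTheoryData.{u, v, w} C K) [IsWeilProj H]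
    (hcomm : GradedComm H) (X : 𝒱.Obj) [FiniteDimensional K (H.A X)]
    [FiniteDimensional K (H.A (X.prod X))] (e : C.A (X.prod X)) (he : HomEq H (C.comp e e) e) :
    SignNC H e ↔ ∃ p u v : C.A (X.prod X), C.Deg X.dim p ∧ HomEq H (C.comp p p) p ∧
      HomEq H (C.comp u v) e ∧ HomEq H (C.comp v u) p ∧ (C.Deg X.dim e → p = e) ∧
      SignChow H p :=
  sign_main H hcomm X e he

end Pool.Agent.Results.MP_8f22fa_ag.GeometricSign
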