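import Pool.Agent.Y121.ZI.RatLaw
import Pool.Agent.Y824.ZI.Cnc

/-!
# MP_8f22fa_ag: the index law for the noncommutative standard conjecture of type `C^+`

For every smooth proper dg category `A` over a perfect field with nonzero realisation: the dimension
of the space of the classes on `X = A^{⊗ n} ⊗ (A^{⊗ n})^op` which are generated, under linear
combinations, compositions and tensor products, by noncommutative correspondences and the even
Künneth projector `π_+` of `A`, divided by the rank of `K_0(X)` modulo numerical equivalence,
converges to some `N` in `{1, 2, 3, …, ∞}`; `N = 1` if and only if `π_+` is the realisation of a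
noncommutative correspondence with rational coefficients (`C^+(A)`) and homological and numerical
equivalence agree on all `A^{⊗ m} ⊗ (A^{⊗ n})^op`; if `N` is finite, the latter holds and all these
classes are generated by elements of `K_0` and at most `N - 1` of them.
-/

universe v

namespace Pool.Agent.Results.MP_8f22fa_ag.IndexLaw

open Pool.Agent.Y121.ZI Pool.Agent.Y121.ZI.NCTheory

/-- The index law for the classes generated by correspondences and the even Künneth projector. -/
theorem result {K : Type} [Field K] [CharZero K] (T : NCTheory.{0, v, 0} K) (A : T.Obj)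
    [Nontrivial (T.H A)] :
    ∃ N : ℕ∞, 1 ≤ N ∧ T.HasIndex (T.classesOf A {evenProj (T.par A)}) A N ∧
      (N = 1 ↔ RationalIn (T.cor A A) (evenProj (T.par A)) ∧ ∀ m n, T.StdD (T.bi A m n)) ∧
      (N ≠ ⊤ → (∀ m n, T.StdD (T.bi A m n)) ∧
        T.Generated (T.classesOf A {evenProj (T.par A)}) A N) := by
  obtain ⟨N, h1, h2, h3, h4⟩ := Ops.index_ops A {evenProj (T.par A)}
  refine ⟨N, h1, h2, ?_, h4⟩
  rw [h3]
  refine and_congr_left fun _ => ⟨fun h => ?_, ?_⟩
  · exact Pool.Agent.Y824.ZI.cnc T A (Pool.Agent.Y681.ZI.tri T A) (h _ rfl)
  · rintro h _ rfl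
    exact mem_S_of_rational h

end Pool.Agent.Results.MP_8f22fa_ag.IndexLaw
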