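import Pool.Agent.Y112.SC.Main

/-!
# The sign conjecture `C⁺` for a Schur functor is the sign conjecture for the object

`C` is a `ℚ`-linear rigid symmetric monoidal category with a symmetric monoidal additive functor to
finite dimensional super vector spaces over a field `K`, for example the category of noncommutative
Chow motives with periodic cyclic homology or topological periodic cyclic homology.
-/

set_option autoImplicit false

open CategoryTheory Limits MonoidalCategory

namespace Pool.Agent.Results.MP_8f22fa_ag.SchurDescent

open Pool.Agent.Y112.SR Pool.Agent.Y112.SC

universe v u w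

theorem result {C : Type u} [Category.{v} C] [Preadditive C] [Linear ℚ C] [MonoidalCategory C]
    [MonoidalPreadditive C] [MonoidalLinear ℚ C] [SymmetricCategory C] [RightRigidCategory C]
    {K : Type w} [Field K] (R : SuperRealisation C K) (M P : C) (n : ℕ) (hn : 1 ≤ n)
    (hP : IsSchurSummand M P n) (h : ¬ IsZero (R.H.obj P)) : R.CPlus P ↔ R.CPlus M :=
  schur_iff R hn hP h

end Pool.Agent.Results.MP_8f22fa_ag.SchurDescent
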