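import Pool.Agent.Y112.SR.Main

/-!
# The sign conjecture `C⁺` for a tensor product is the sign conjecture for the factors

`C` is a `ℚ`-linear rigid symmetric monoidal category with a symmetric monoidal additive functor to
finite dimensional super vector spaces over a field `K`, for example the category of noncommutative
Chow motives with periodic cyclic homology or topological periodic cyclic homology.
-/

set_option autoImplicit false

open CategoryTheory Limits MonoidalCategory

namespace Pool.Agent.Results.MP_8f22fa_ag.TensorDescent

open Pool.Agent.Y112.SR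

universe v u w

theorem result {C : Type u} [Category.{v} C] [Preadditive C] [Linear ℚ C] [MonoidalCategory C]
    [SymmetricCategory C] [RightRigidCategory C] {K : Type w} [Field K]
    (R : SuperRealisation C K) (M N : C) (h : ¬ IsZero (R.H.obj (M ⊗ N))) :
    R.CPlus (M ⊗ N) ↔ R.CPlus M ∧ R.CPlus N := by
  have h1 : ¬ IsZero (R.H.obj M ⊗ R.H.obj N) := fun h0 =>
    h (h0.of_iso (Functor.Monoidal.μIso R.H M N).symm)
  have hM : ¬ IsZero (R.H.obj M) := fun h0 => h1 (by
    rw [IsZero.iff_id_eq_zero] at h0 ⊢
    rw [← id_whiskerRight, h0, MonoidalPreadditive.zero_whiskerRight])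
  have hN : ¬ IsZero (R.H.obj N) := fun h0 => h1 (by
    rw [IsZero.iff_id_eq_zero] at h0 ⊢
    rw [← whiskerLeft_id, h0, MonoidalPreadditive.whiskerLeft_zero])
  exact ⟨fun h => ⟨cplus_of_tensor R hN h, cplus_of_tensor R hM (cplus_braid R h)⟩,
    fun h => cplus_tensor R h.1 h.2⟩

end Pool.Agent.Results.MP_8f22fa_ag.TensorDescent
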